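import Pool.Agent.V1140.DI.Transport

/-!
# Dade's invariant conjecture: rationality of the invariant characters

Let `E` be a finite group, `N` a normal subgroup of `E` (the group `G` of the conjecture) and `p` a
prime. All sums are over representatives `σ` of the `N`-conjugacy classes of radical `p`-chains of `N`:
`P_1 < ... < P_n` are nontrivial `p`-subgroups of `N` and `P_k = O_p(N_N(P_1) ∩ ... ∩ N_N(P_k))` for
all `k`; for `O_p(N) = 1` they are the radical chains of the conjecture, with `P_0 = 1` removed. The
sign is `(-1)^n`, and `E_σ` and `N_σ` are the stabilisers of `σ` in `E` and in `N`. For an irreducible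
character `ψ` of `N_σ` the subgroup `N_{E/N}(σ, ψ)` of `E/N` is the image of the stabiliser of `(σ, ψ)`
in `E`.

* For each coset `yN` and each exponent `s` prime to the order of `N`, the alternating sum of the
  numbers of the `ψ ∈ Irr(N_σ)` such that `ψ (e g ^ s e⁻¹) = ψ g` for all `g`, for some `e` in
  `E_σ ∩ N y`, depends only on `s` modulo the `p'`-part of the order of `N`.
* If `y ^ k ∈ N` and `k` is prime to `p`, then the `ψ` of positive `p`-rationality level `a` such that
  `N_{E/N}(σ, ψ)` contains the coset of `y` cancel in the alternating sum (`a ≥ 3` if `p = 2`; if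
  `a = 1` also `k` prime to `p - 1` is assumed).
* Let `E/N` be cyclic of order prime to `p` and `U/N` a subgroup of `E/N`. Then the `ψ` of positive
  `p`-rationality level `a` with `N_{E/N}(σ, ψ) = U/N` cancel in the alternating sum (`a ≥ 3` if
  `p = 2`; if `a = 1` the order of `E/N` is also assumed to be prime to `p - 1`).
-/

set_option autoImplicit false

open Pool.Agent.V1140.DC Pool.Agent.V1140.DI

namespace Pool.Agent.Results.MP_baa4d7_al.InvariantLevels

/-- **Theorem.** The alternating sums over the radical chains of the numbers of the irreducible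
characters of the stabilisers which are fixed by an outer automorphism and a Galois automorphism
depend only on the `p'`-part of the Galois automorphism; characters of positive `p`-rationality level
cancel in the sums of the invariant conjecture over all blocks and defects, if `E/N` is cyclic of
order prime to `p`. -/
theorem result (p : ℕ) [Fact p.Prime] (E : Type) [Group E] [Finite E] (N : Subgroup E) [N.Normal] :
    (∀ (y : E) (s t : ℕ), Nat.Coprime s (Nat.card N) → Nat.Coprime t (Nat.card N) →
      s ≡ t [MOD Nat.card N / p ^ (Nat.card N).factorization p] →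
      rSum p N (fun M => (numInv s N y M : ℤ)) = rSum p N (fun M => (numInv t N y M : ℤ))) ∧
    (∀ (y : E) (k a : ℕ), y ^ k ∈ N → ¬ p ∣ k →
      ((p = 2 → 2 ≤ a) → (a = 0 → Nat.Coprime k (p - 1)) →
        rSum p N (fun M => (cI N (RAll N) y M : ℤ)) =
          rSum p N (fun M => (cI N (RRat p a N) y M : ℤ))) ∧
      (1 ≤ a → (p = 2 → 3 ≤ a) → (a = 1 → Nat.Coprime k (p - 1)) →
        rSum p N (fun M => (cI N (RLev p a N) y M : ℤ)) = 0)) ∧
    (IsCyclic (E ⧸ N) → ¬ p ∣ Nat.card (E ⧸ N) → ∀ U : Subgroup E, N ≤ U → ∀ a : ℕ,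
      ((p = 2 → 2 ≤ a) → (a = 0 → Nat.Coprime (Nat.card (E ⧸ N)) (p - 1)) →
        rSum p N (fun M => (cS N (RAll N) U M : ℤ)) =
          rSum p N (fun M => (cS N (RRat p a N) U M : ℤ))) ∧
      (1 ≤ a → (p = 2 → 3 ≤ a) → (a = 1 → Nat.Coprime (Nat.card (E ⧸ N)) (p - 1)) →
        rSum p N (fun M => (cS N (RLev p a N) U M : ℤ)) = 0)) := by
  refine ⟨fun y s t hs ht hst => ?_, fun y k a hy hk => ⟨fun ha h0 => ?_,
    fun ha1 ha h0 => ?_⟩, fun hc hk U _ a => ⟨fun ha h0 => ?_, fun ha1 ha h0 => ?_⟩⟩
  · rw [rSum_numInv, rSum_numInv]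
    exact master hs ht hst y
  · rw [rSum_cI inv_all, rSum_cI (inv_rat a)]
    exact (sum_cI ha hk h0 hy).symm
  · rw [rSum_cI (inv_lev a)]
    exact lev_cI ha hk (fun h => h0 (by omega)) hy
  · rw [rSum_cS inv_all, rSum_cS (inv_rat a)]
    exact (sum_cS hk ha h0 U).symm
  · rw [rSum_cS (inv_lev a)]
    exact lev_cS hk ha (fun h => h0 (by omega)) U

end Pool.Agent.Results.MP_baa4d7_al.InvariantLevels
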